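import Pool.Agent.MP_3ee8cb_gt.CR.RPACK

/-! The area inequality for locally Lipschitz maps and its equality case on a quotient. -/

namespace Pool.Agent.MP_3ee8cb_gt.DZV

open Set Filter Topology MeasureTheory MeasureTheory.Measure Module
open scoped ENNReal

variable {E : Type} [NormedAddCommGroup E] [NormedSpace ℝ E] [FiniteDimensional ℝ E]
  [MeasurableSpace E] [BorelSpace E] (μ : Measure E) [IsAddHaarMeasure μ] {F : E → E}

theorem ae_diff {G : Type} [NormedAddCommGroup G] [NormedSpace ℝ G] [FiniteDimensional ℝ G]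
    {F : E → G} (hF : LocallyLipschitz F) : ∀ᵐ x ∂μ, DifferentiableAt ℝ F x := by
  refine measure_null_of_locally_null _ fun x _ => ?_
  obtain ⟨K, t, ht, hK⟩ := hF x
  refine ⟨_, inter_mem_nhdsWithin _ (interior_mem_nhds.2 ht),
    measure_mono_null (fun y hy => ?_) (ae_iff.1 (hK.ae_differentiableWithinAt_of_mem (μ := μ)))⟩
  intro hc
  exact hy.1 ((hc (interior_subset hy.2)).differentiableAt (mem_interior_iff_mem_nhds.1 hy.2))

theorem null_img (hF : LocallyLipschitz F) {s : Set E} (hs : μ s = 0) : μ (F '' s) = 0 := by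
  refine measure_null_of_locally_null (μ := OuterMeasure.comap F μ.toOuterMeasure) s fun x _ => ?_
  obtain ⟨K, t, ht, hK⟩ := hF x
  refine ⟨s ∩ t, inter_mem_nhdsWithin _ ht, ?_⟩
  have h1 : (μH[finrank ℝ E] : Measure E) (s ∩ t) = 0 :=
    absolutelyContinuous_isAddHaarMeasure (μH[finrank ℝ E] : Measure E) μ
      (measure_mono_null inter_subset_left hs)
  have h2 := (hK.mono (inter_subset_right (s := s))).hausdorffMeasure_image_le
    (d := finrank ℝ E) (Nat.cast_nonneg _)
  rw [h1, mul_zero, nonpos_iff_eq_zero] at h2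
  exact absolutelyContinuous_isAddHaarMeasure μ (μH[finrank ℝ E] : Measure E) h2

theorem area (hF : LocallyLipschitz F) {s : Set E} (hs : MeasurableSet s) :
    μ (F '' s) ≤ ∫⁻ x in s, ENNReal.ofReal |(fderiv ℝ F x).det| ∂μ := by
  have hm : MeasurableSet {x | DifferentiableAt ℝ F x} := measurableSet_of_differentiableAt ℝ F
  have h1 := addHaar_image_le_lintegral_abs_det_fderiv μ (hs.inter hm) (f := F)
    (f' := fderiv ℝ F) fun x hx => hx.2.hasFDerivAt.hasFDerivWithinAt
  have h2 := null_img μ hF (ae_iff.1 (ae_diff μ hF))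
  calc μ (F '' s) ≤ μ (F '' (s ∩ {x | DifferentiableAt ℝ F x}) ∪
        F '' {x | ¬DifferentiableAt ℝ F x}) := by
        refine measure_mono ?_
        rintro _ ⟨x, hx, rfl⟩
        by_cases h : DifferentiableAt ℝ F x
        · exact Or.inl ⟨x, ⟨hx, h⟩, rfl⟩
        · exact Or.inr ⟨x, h, rfl⟩
    _ ≤ _ := by
        refine (measure_union_le _ _).trans ?_
        rw [h2, add_zero]
        exact h1.trans (lintegral_mono_set inter_subset_left)

theorem m_det (F : E → E) : Measurable fun x => ENNReal.ofReal |(fderiv ℝ F x).det| :=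
  ((ContinuousLinearMap.continuous_det.measurable.comp (measurable_fderiv ℝ F)).abs).ennreal_ofReal

theorem area_w (hF : LocallyLipschitz F) {s : Set E} (hs : MeasurableSet s) {r : E → ℝ≥0∞}
    (hr : Measurable r) :
    ∫⁻ y in F '' s, r y ∂μ ≤ ∫⁻ x in s, ENNReal.ofReal |(fderiv ℝ F x).det| * r (F x) ∂μ := by
  have mF := hF.continuous.measurable
  have h1 : μ.restrict (F '' s) ≤ ((μ.restrict s).withDensity
      fun x => ENNReal.ofReal |(fderiv ℝ F x).det|).map F := by
    refine Measure.le_iff.2 fun B hB => ?_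
    rw [restrict_apply hB, map_apply mF hB, withDensity_apply _ (mF hB), restrict_restrict (mF hB),
      ← image_preimage_inter]
    exact area μ hF ((mF hB).inter hs)
  refine (lintegral_mono' h1 le_rfl).trans_eq ?_
  rw [lintegral_map hr mF]
  exact lintegral_withDensity_eq_lintegral_mul _ (m_det F) (hr.comp mF)

/-- An equivariant surjection that does not expand volume preserves it when the total volumes
agree. -/
theorem vol_eq {Γ Λ : Type} [Group Γ] [Group Λ] [Countable Λ] [MulAction Γ E] [MulAction Λ E]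
    (ρ : Γ → Λ) (hF : LocallyLipschitz F) (eqv : ∀ γ x, F (γ • x) = ρ γ • F x)
    (su : Function.Surjective F) {r₁ r₂ : E → ℝ≥0∞} (m₁ : Measurable r₁) (m₂ : Measurable r₂)
    (mp : ∀ l : Λ, MeasurePreserving (fun x : E => l • x) (μ.withDensity r₂) (μ.withDensity r₂))
    {D D' : Set E} (mD : MeasurableSet D) (mD' : MeasurableSet D') (cD : ∀ x : E, ∃ γ : Γ, γ • x ∈ D)
    (uD : ∀ (l : Λ) (x : E), x ∈ D' → l • x ∈ D' → l = 1) (fin : ∫⁻ x in D, r₁ x ∂μ ≠ ⊤)
    (he : ∫⁻ x in D, r₁ x ∂μ ≤ ∫⁻ y in D', r₂ y ∂μ)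
    (jac : ∀ᵐ x ∂μ, ENNReal.ofReal |(fderiv ℝ F x).det| * r₂ (F x) ≤ r₁ x) :
    ∀ᵐ x ∂μ, x ∈ D → ENNReal.ofReal |(fderiv ℝ F x).det| * r₂ (F x) = r₁ x := by
  have h1 := CR.pack E Λ (μ.withDensity r₂) (fun l x => l • x) univ D' (F '' D) mp
    (fun l z _ => ⟨trivial, inv_smul_smul l z⟩) .univ mD' (subset_univ _) (subset_univ _)
    (fun l l' z _ h h' => by
      have := uD (l' * l⁻¹) _ h (by rwa [mul_smul, inv_smul_smul])
      exact (mul_inv_eq_one.1 this).symm)
    fun z _ => by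
      obtain ⟨x, rfl⟩ := su z
      obtain ⟨γ, hγ⟩ := cD x
      exact ⟨(ρ γ)⁻¹, _, ⟨_, hγ, rfl⟩, by rw [eqv, inv_smul_smul]⟩
  rw [withDensity_apply _ mD', withDensity_apply'] at h1
  have h2 := ae_restrict_of_ae (s := D) jac
  exact (ae_restrict_iff' mD).1 (ae_eq_of_ae_le_of_lintegral_le h2
    (ne_top_of_le_ne_top fin (lintegral_mono_ae h2)) m₁.aemeasurable
    (he.trans (h1.trans (area_w μ hF mD m₂))))

end Pool.Agent.MP_3ee8cb_gt.DZV
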