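import Pool.Agent.MP_3ee8cb_gt.LV.All
import Pool.Agent.MP_3ee8cb_gt.CR.RFD
import Pool.Agent.MP_3ee8cb_gt.DNSI.Int
import Pool.Agent.MP_3ee8cb_gt.DZV.Area

/-! Conjugate manifolds have the same volume; the volume in frames. -/

namespace Pool.Agent.MP_3ee8cb_gt.DZV

open Set Filter Topology MeasureTheory CR LV
open scoped RealInnerProductSpace

theorem vol_cj {n : ℕ} {g h : Met n} {Γ Λ : Type} [Group Γ] [Group Λ] [MulAction Γ (E n)]
    [MulAction Λ (E n)] {Φ : ℝ → UT g → UT g} {Ψ : ℝ → UT h → UT h} {ρ : Γ ≃* Λ}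
    {F : UT g ≃ₜ UT h} {a : ℝ} (h0 : 0 < n) (qg : QP g Γ Φ) (qh : QP h Λ Ψ)
    (cj : CJ g h Φ Ψ ρ F) (ha : 0 < a) (hc : TB.CurvLe h a) {D D' : Set (E n)} (hD : Fund Γ D)
    (hD' : Fund Λ D') : vol g D = vol h D' := by
  have hg := qg.rp.riem
  have hh := qh.rp.riem
  have fh := qh.rp.flow
  have hi := all_hinge n h Λ Ψ a qh.rp ha hc
  obtain ⟨mh, i2⟩ := hm n h Λ Ψ qh a ha hi
  have t := th n h Λ Ψ qh a ha mh i2
  have bh := bp n h Λ Ψ qh mh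
  have eh := eqv n h Λ Ψ qh mh
  obtain ⟨G, hG⟩ := chr n h hh
  have N : NP h Ψ := ⟨fh.zero, qh.add, qh.jc, bh,
    lps n h Λ Ψ qh a ha mh t (lp1 n h Λ Ψ qh a ha mh i2),
    chart alg key n h G Ψ a hh hG ha (lb2 n h Λ Ψ qh G a ha hG
      (tay2 n h Λ Ψ qh G hG (ode n h G Ψ hh hG fh)) (lb n h Λ Ψ qh a ha hi bh))
      (cross n h Λ Ψ qh), cov' n h hh⟩
  obtain ⟨mg, T⟩ := min2 n g h Γ Λ Φ Ψ ρ F qg qh cj (uq n g h Γ Λ Φ Ψ ρ F qg qh cj eh)
    (morse n h Λ Ψ qh a ha mh t)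
  have P₁ := fin_pres star (half sv2) glob N qg.rp.flow.zero (bp n g Γ Φ qg mg) (cov' n g hg) T
  have P₂ : MvP h Λ := fun γ => by
    obtain ⟨M, m₁, m₂⟩ := mv n h Λ Ψ qh eh γ
    exact ⟨M, m₁, fin_pres star (half sv2) glob N fh.zero bh N.cov m₂⟩
  have H := fund n g h Γ Λ Φ Ψ ρ F D D' univ qg.rp.deck qh.rp.deck (cov' n g hg) N.cov cj P₁ P₂
    hD hD' .univ fun _ _ _ _ _ => trivial
  rw [image_univ, F.surjective.range_eq] at H
  simp only [mem_univ, and_true] at H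
  rw [vol' n g D h0 hg (cov' n g hg) hD.1, vol' n h D' h0 hh (cov' n h hh) hD'.1] at H
  exact (ENNReal.mul_right_inj (Metric.measure_closedBall_pos _ _ one_pos).ne'
    measure_closedBall_lt_top.ne).1 H

theorem vol_frame {n : ℕ} {g : Met n} {S : E n → E n →L[ℝ] E n}
    (hS : ∀ x u v, g x u v = ⟪S x u, S x v⟫) (D : Set (E n)) :
    vol g D = ∫⁻ x in D, ENNReal.ofReal |(S x).det| := by
  classical
  refine lintegral_congr fun x => ?_
  have hM : (Matrix.of fun i j : Fin n =>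
      g x (EuclideanSpace.single i 1) (EuclideanSpace.single j 1)) =
      LinearMap.toMatrix (EuclideanSpace.basisFun (Fin n) ℝ).toBasis
        (EuclideanSpace.basisFun (Fin n) ℝ).toBasis
        (LinearMap.adjoint (S x : E n →ₗ[ℝ] E n) ∘ₗ (S x : E n →ₗ[ℝ] E n)) := by
    ext i j
    rw [LinearMap.toMatrix_apply, Matrix.of_apply, OrthonormalBasis.coe_toBasis_repr_apply,
      OrthonormalBasis.repr_apply_apply, LinearMap.comp_apply, LinearMap.adjoint_inner_right, hS]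
    simp
  rw [hM, LinearMap.det_toMatrix, LinearMap.det_comp, vol_adj, Real.sqrt_mul_self_eq_abs]

theorem fund_of {n : ℕ} {Γ : Type} [Group Γ] [MulAction Γ (E n)] {D : Set (E n)}
    (m : MeasurableSet D) (c : ∀ x : E n, ∃ γ : Γ, γ • x ∈ D)
    (u : ∀ (γ : Γ) (x : E n), x ∈ D → γ • x ∈ D → γ = 1) : Fund Γ D := by
  refine ⟨m, fun x => ?_⟩
  obtain ⟨γ, hγ⟩ := c x
  exact ⟨γ, hγ, fun δ hδ => mul_inv_eq_one.1 (u (δ * γ⁻¹) _ hγ (by rwa [mul_smul, inv_smul_smul]))⟩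

open DN in
theorem det_SR [Dim] {m : MF} (o : m.OK) (x : V) : |(m.S x).det| * |(m.R x).det| = 1 := by
  have e : (m.S x : V →ₗ[ℝ] V) ∘ₗ (m.R x : V →ₗ[ℝ] V) = LinearMap.id :=
    LinearMap.ext fun a => o.SR x a
  have := congrArg (fun L => |LinearMap.det L|) e
  simpa only [LinearMap.det_comp, LinearMap.det_id, abs_mul, abs_one] using this

open DN in
/-- The Jacobian is one almost everywhere, from the equality of the volumes in frames. -/
theorem jac_one [Dim] {m m' : MF} {Γ Λ : Type} [Group Γ] [Group Λ] [MulAction Γ V]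
    [MulAction Λ V] {O' : Λ → V → V ≃ₗᵢ[ℝ] V} (ρ : Γ → Λ) (o : m.OK) (o' : m'.OK)
    (A : Act m' Λ O') (f : FdP dm Γ) (f' : FdP dm Λ)
    (hv : ∀ D D', Fund Γ D → Fund Λ D' → ∫⁻ x in D, ENNReal.ofReal |(m.S x).det| ≤
      ∫⁻ x in D', ENNReal.ofReal |(m'.S x).det|)
    {F : V → V} (hF : LocallyLipschitz F) (eqv : ∀ γ x, F (γ • x) = ρ γ • F x)
    (su : Function.Surjective F)
    (jac : ∀ᵐ x : V, |((m'.S (F x)).comp ((fderiv ℝ F x).comp (m.R x))).det| ≤ 1) :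
    ∀ᵐ x : V, |((m'.S (F x)).comp ((fderiv ℝ F x).comp (m.R x))).det| = 1 := by
  have := f'.1
  obtain ⟨D', mD', -, -, cD', uD'⟩ := f'.2 0
  have e : ∀ x, |((m'.S (F x)).comp ((fderiv ℝ F x).comp (m.R x))).det| * |(m.S x).det| =
      |(fderiv ℝ F x).det| * |(m'.S (F x)).det| := fun x => by
    have h1 := det_SR o x
    simp only [ContinuousLinearMap.det, ContinuousLinearMap.toLinearMap_comp, LinearMap.det_comp,
      abs_mul] at h1 ⊢
    linear_combination (|LinearMap.det (fderiv ℝ F x : V →ₗ[ℝ] V)| *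
      |LinearMap.det (m'.S (F x) : V →ₗ[ℝ] V)|) * h1
  refine measure_null_of_locally_null _ fun x₀ _ => ?_
  obtain ⟨D, mD, bD, nD, cD, uD⟩ := f.2 x₀
  have fin : ∫⁻ x in D, ENNReal.ofReal |(m.S x).det| ≠ ⊤ :=
    ne_top_of_le_ne_top (((SI.cdet o).continuousOn.integrableOn_compact
      bD.isCompact_closure).lintegral_lt_top).ne (lintegral_mono_set subset_closure)
  have key := vol_eq volume ρ hF eqv su (SI.cdet o).measurable.ennreal_ofReal
    (SI.cdet o').measurable.ennreal_ofReal (SI.mp_base A) mD mD' cD uD' fin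
    (hv D D' (fund_of mD cD uD) (fund_of mD' cD' uD')) (by
      filter_upwards [jac] with x hx
      rw [← ENNReal.ofReal_mul (abs_nonneg _), ← e]
      exact ENNReal.ofReal_le_ofReal (mul_le_of_le_one_left (abs_nonneg _) hx))
  refine ⟨_, inter_mem_nhdsWithin _ nD, measure_mono_null (fun x hx => ?_) (ae_iff.1 key)⟩
  intro hc
  have h1 := hc hx.2
  rw [← ENNReal.ofReal_mul (abs_nonneg _), ← e,
    ENNReal.ofReal_eq_ofReal_iff (by positivity) (abs_nonneg _)] at h1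
  exact hx.1 (mul_right_cancel₀ (abs_ne_zero.2 (SI.det_ne o x)) (h1.trans (one_mul _).symm))

open DN in
/-- The volumes in frames agree. -/
theorem vol_fr [Dim] {g h : Met dm} {C C' : TB.Chr dm} {Γ Λ : Type} [Group Γ] [Group Λ]
    [MulAction Γ V] [MulAction Λ V] {Φ : ℝ → UT g → UT g} {Ψ : ℝ → UT h → UT h} {ρ : Γ ≃* Λ}
    {φ : UT g ≃ₜ UT h} {a : ℝ} (qg : QP g Γ Φ) (qh : QP h Λ Ψ) (cj : CJ g h Φ Ψ ρ φ) (ha : 0 < a)
    (hc : TB.CurvLe h a) {m m' : MF} (o : m.OK) (o' : m'.OK) (l : Lk g C Φ m) (l' : Lk h C' Ψ m')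
    {D D' : Set V} (hD : Fund Γ D) (hD' : Fund Λ D') :
    ∫⁻ x in D, ENNReal.ofReal |(m.S x).det| = ∫⁻ x in D', ENNReal.ofReal |(m'.S x).det| := by
  rw [← vol_frame (g := g) fun x u v => by rw [← l.orth x, o.RS, o.RS],
    ← vol_frame (g := h) fun x u v => by rw [← l'.orth x, o'.RS, o'.RS]]
  exact vol_cj (Nat.succ_pos _) qg qh cj ha hc hD hD'

open DN in
/-- Step four. -/
theorem vol_ae [Dim] {g h : Met dm} {C C' : TB.Chr dm} {Γ Λ : Type} [Group Γ] [Group Λ]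
    [MulAction Γ V] [MulAction Λ V] {Φ : ℝ → UT g → UT g} {Ψ : ℝ → UT h → UT h} {ρ : Γ ≃* Λ}
    {φ : UT g ≃ₜ UT h} {a : ℝ} (qg : QP g Γ Φ) (qh : QP h Λ Ψ) (cj : CJ g h Φ Ψ ρ φ) (ha : 0 < a)
    (hc : TB.CurvLe h a) {m m' : MF} (o : m.OK) (o' : m'.OK) (l : Lk g C Φ m) (l' : Lk h C' Ψ m')
    {O' : Λ → V → V ≃ₗᵢ[ℝ] V} (A : Act m' Λ O') {F : V → V} (hF : LocallyLipschitz F)
    (eqv : ∀ γ x, F (γ • x) = ρ γ • F x) (su : Function.Surjective F)
    (jac : ∀ᵐ x : V, |((m'.S (F x)).comp ((fderiv ℝ F x).comp (m.R x))).det| ≤ 1) :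
    ∀ᵐ x : V, |((m'.S (F x)).comp ((fderiv ℝ F x).comp (m.R x))).det| = 1 :=
  jac_one ρ o o' A (fd _ g Γ qg.rp.deck) (fd _ h Λ qh.rp.deck)
    (fun _ _ hD hD' => (vol_fr qg qh cj ha hc o o' l l' hD hD').le) hF eqv su jac

end Pool.Agent.MP_3ee8cb_gt.DZV
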